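import Pool.Agent.H75.GA.Defs
import Pool.Agent.H26.FM.Act

/-!
# Settled structures, and families of structures with a group action
-/

noncomputable section

namespace GD

/-- The polarised structure `S` is settled: the conjecture of Gross and Deligne, for all abelian
number fields, holds for all admissible triples in the structures generated by `S` under tensor
products, direct sums and quotients. -/
def Settled (S : Str) : Prop :=
  Nonempty (Pol S) ∧ ∀ (F : Type) [Field F] [NumberField F] (e : F →+* ℂ), (∃ d, LiesIn e d) →
    TriplesFor (Gen fun T => T = S) e

/-- The settled part of `S`: the complex span of the images of the morphisms to `S` from the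
structures generated by settled structures. -/
def setPart (S : Str) : Submodule ℂ S.W :=
  Submodule.span ℂ {x | ∃ (T : Str) (f : T.W →ₗ[ℂ] S.W) (t : T.W), Gen Settled T ∧ IsHom T S f ∧
    x = f t}

/-- The rational span of the endomorphisms of `S` which are symmetric for some polarisation. -/
def symOps (S : Str) : Submodule ℚ (Module.End ℂ S.W) :=
  Submodule.span ℚ {z | IsHom S S z ∧ ∃ P : Pol S, ∀ x y, P.E (z x) y = P.E x (z y)}

/-- The operators `f` and `h` on `S` are equal modulo symmetric endomorphisms and modulo the settled
part. -/
def Near (S : Str) (f h : Module.End ℂ S.W) : Prop :=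
  ∃ z ∈ symOps S, ∀ x, f x - h x - z x ∈ setPart S

/-- A finite family of polarised structures `S k` with integers `m k ≠ 0`, on which a group `G`
acts. For a smooth projective variety `X` over the algebraic numbers with a group `G` of
automorphisms which fix an ample class, the primitive cohomology groups `S k` of the degrees
`k ≤ dim X`, with `m k = (-1) ^ k * (dim X - k + 1)`, are such a family. -/
structure Family where
  ι : Type
  [fin : Fintype ι]
  S : ι → Str
  pol : ∀ k, Nonempty (Pol (S k))
  m : ι → ℤ
  m_ne : ∀ k, m k ≠ 0
  G : Type
  [grp : Group G]
  act : ∀ k, G →* Module.End ℂ (S k).W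
  hom : ∀ k g, IsHom (S k) (S k) (act k g)

attribute [instance] Family.fin Family.grp

variable (X : Family)

/-- The relation of Gross and Deligne for the products, with exponents `m k`, of the determinants of
periods of the eigenspaces of the elements of finite order of `G`: if `g ^ N = 1`, if `a` is a class
modulo `N`, and if the sums with coefficients `m k` of the Hodge types of the eigenspaces of `g` in
the `S k` for the roots of unity `exp (2 π i l a / N)`, multiplied by `N`, are `∑ b, ε b * ⟨l b⟩`
for all units `l`, then the products with exponents `m k` of their periods are, up to algebraic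
numbers, the gamma products given by `ε`. -/
def Family.Rel : Prop :=
  ∀ (g : X.G) (N : ℕ) [NeZero N], 3 ≤ N → g ^ N = 1 → ∀ (a : ZMod N) (ε : ZMod N → ℚ),
    (∀ l : (ZMod N)ˣ, (N : ℚ) * ∑ k, (X.m k : ℚ) * (eigType (X.S k) (X.act k g) N (l * a) : ℚ) =
      ∑ b ∈ Finset.univ.erase (0 : ZMod N), ε b * (((l : ZMod N) * b).val : ℚ)) →
    ∀ (l : (ZMod N)ˣ) (z : X.ι → ℂ),
      (∀ k, IsEigPeriod (X.S k) (X.act k g) N (l * a) (z k)) →
      Sim (∏ k, z k ^ X.m k) (gammaProd N ε l)

/-- The operator on `S k` given by the element `c` of the rational group algebra of `G`. -/
def Family.op (c : X.G →₀ ℚ) (k : X.ι) : Module.End ℂ (X.S k).W :=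
  c.sum fun g q => (q : ℂ) • X.act k g

/-- The member `S n` of the family is good for the number field `F` with the embedding `e`: every
imaginary cyclic subfield `K` of `F` which acts on a factor of `S n` through the centre of the
endomorphisms acts on a factor, not zero, of this factor through the rational group algebra, in the
following sense: for every `a` in `K` there is a rational combination `c` of elements of finite
order of `G` which acts on `S n` as `a` on this factor and as zero on its complement, and which acts
as zero on the other members, modulo symmetric endomorphisms and modulo the settled parts. -/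
def Family.IsGood (n : X.ι) {F : Type} [Field F] (e : F →+* ℂ) : Prop :=
  ∀ (K : Type) [Field K] [NumberField K] (i : K →+* F), (∃ x, (e (i x)).im ≠ 0) →
    IsGalois ℚ K → IsCyclic (K ≃ₐ[ℚ] K) →
      ∀ κ : K →ₙ+* Module.End ℂ (X.S n).W, CentralAction κ → ∃ φ, IsRestriction κ φ ∧
        ∀ a, ∃ c : X.G →₀ ℚ, (∀ g ∈ c.support, IsOfFinOrder g) ∧
          Near (X.S n) (φ a) (X.op c n) ∧ ∀ j, j ≠ n → Near (X.S j) (X.op c j) 0

end GD
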