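import Pool.Agent.H65.AP.Lin

/-!
# The conjecture for good families
-/

noncomputable section

namespace GD

open Complex Module NumberField

variable (X : Family)

theorem Family.op_mem {c : X.G →₀ ℚ} (hc : ∀ g ∈ c.support, IsOfFinOrder g) (k : X.ι) :
    X.op c k ∈ Submodule.span ℚ (finAut (X.S k)) := by
  refine Submodule.sum_mem _ fun g hg => ?_
  have h1 : ((c g : ℚ) : ℂ) • X.act k g = c g • X.act k g := (ratC_smul _ _).symm
  change ((c g : ℚ) : ℂ) • X.act k g ∈ _
  rw [h1]
  refine Submodule.smul_mem _ _ (Submodule.subset_span ⟨X.hom k g, ?_⟩)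
  obtain ⟨m, hm, hgm⟩ := isOfFinOrder_iff_pow_eq_one.1 (hc g hg)
  exact ⟨m, hm, by rw [← map_pow, hgm, map_one]⟩

/-- The group ring elements which are trivial on the other members are good. -/
def GoodOp : Prop := ∀ (X : Family), X.Rel → ∀ c : X.G →₀ ℚ, (∀ g ∈ c.support, IsOfFinOrder g) →
  ∀ n : X.ι, (∀ j, j ≠ n → Near (X.S j) (X.op c j) 0) → ∃ m, 0 < m ∧ ∀ (D : ℕ) [NeZero D],
    m ∣ D → 3 ≤ D → ∀ δ c', GA.IsCoef δ D c' → GA.Good (X.S n) D δ c' (X.op c n)

/-- The relation for the simple substructures from the relation for restrictions of the central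
actions. -/
theorem detFor_of_restrict {S : Str} (P : Pol S) {F : Type} [Field F] {e : F →+* ℂ}
    (h : ∀ (K : Type) [Field K] [NumberField K] (i : K →+* F), (∃ x, (e (i x)).im ≠ 0) →
      IsGalois ℚ K → IsCyclic (K ≃ₐ[ℚ] K) → ∀ κ : K →ₙ+* Module.End ℂ S.W, CentralAction κ →
        ∃ φ, IsRestriction κ φ ∧ FactorRelation φ (e.comp i)) : DetFor (fun T => T = S) e := by
  intro K _ _ i him hG hc S' hS' M hM ι hι
  have hS : S' = S := hS'
  subst hS
  obtain ⟨κ, hκ, hiso⟩ := exists_isot P hM ι hι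
  obtain ⟨φ, hφ, hrel⟩ := h K i him hG hc κ hκ
  have hφa : ∀ a, IsHom S' S' (φ a) := fun a => by
    rw [hφ.2.2 a]
    exact (hκ.2.1 a).comp hφ.2.1
  obtain ⟨M', ι', hM', -, hι', heig', -, hcx', hact'⟩ := exists_sub φ hφa hφ.1
  refine rel_of_restriction hM ι hι hκ hiso hφ hM' hι' hcx' hact' ?_
  intro d _ hd ε hε l τ hτ z hz
  refine hrel d hd ε (fun l' τ' hτ' => ?_) l τ hτ z
    (factorPeriod_of hM'.le (fun τ => (heig' τ).symm) hz)
  rw [factorType_eq fun τ => (heig' τ).symm]
  exact hε l' τ' hτ'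

/-- The relation for the simple constituents of a good member of a family. -/
theorem Family.det (hsym : SymGood) (hop : GoodOp) (hR : X.Rel) {F : Type} [Field F]
    {e : F →+* ℂ} (he : ∃ d, LiesIn e d) {n : X.ι} (hX : X.IsGood n e) :
    DetFor (fun S => S = X.S n) e := by
  refine detFor_of_restrict (X.pol n).some ?_
  intro K _ _ i him hG hc κ hκ
  have hlies : ∃ d, LiesIn (e.comp i) d := by
    obtain ⟨d, hd⟩ := he
    exact ⟨d, hd.1, fun x => hd.2 (i x)⟩
  obtain ⟨φ, hφ, h⟩ := hX K i him hG hc κ hκ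
  have hφa : ∀ a, IsHom (X.S n) (X.S n) (φ a) := fun a => by
    rw [hφ.2.2 a]
    exact (hκ.2.1 a).comp hφ.2.1
  refine ⟨φ, hφ, factor_of_good hsym (X.pol n).some hlies hφa fun a => ?_⟩
  obtain ⟨c, hfin, hnear, hz⟩ := h a
  exact ⟨X.op c n, X.op_mem hfin n, hop X hR c hfin n hz, hnear⟩

/-- The conjecture for the structures generated by settled structures and by the good members of
the families which satisfy the relation. -/
theorem triples_of_families (hsym : SymGood) (hop : GoodOp) {F : Type} [Field F] [NumberField F]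
    (e : F →+* ℂ) (he : ∃ d, LiesIn e d) :
    TriplesFor (Gen fun S => Settled S ∨ ∃ (X : Family) (n : X.ι), X.Rel ∧ X.IsGood n e ∧
      S = X.S n) e := by
  have hP : ∀ S, (Settled S ∨ ∃ (X : Family) (n : X.ι), X.Rel ∧ X.IsGood n e ∧ S = X.S n) →
      Nonempty (Pol S) := by
    rintro S (hS | ⟨X, n, -, -, rfl⟩)
    · exact hS.1
    · exact X.pol n
  refine fun R hR A => det_suffices hP e he ?_ hR A
  intro K _ _ i him hG hc S hS M hM ι hι
  rcases hS with hS | ⟨X, n, hR, hX, rfl⟩
  · exact detFor_of_central (C₀ := fun T => T = S) (fun T hT => by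
      rw [hT]
      exact hS.1) (central_of_triples (C₀ := fun T => T = S) (fun T hT => by
        rw [hT]
        exact hS.1) he (hS.2 F e he)) K i him hG hc S rfl M hM ι hι
  · exact X.det hsym hop hR he hX K i him hG hc _ rfl M hM ι hι

/-- A member which is good for all abelian fields is settled if the relation holds. -/
theorem Family.settled_of_rel (hsym : SymGood) (hop : GoodOp) {n : X.ι}
    (hX : ∀ (F : Type) [Field F] [NumberField F] (e : F →+* ℂ), (∃ d, LiesIn e d) →
      X.IsGood n e) (hR : X.Rel) : Settled (X.S n) := by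
  refine ⟨X.pol n, fun F _ _ e he R hR' A => ?_⟩
  refine triples_of_families hsym hop e he R (Gen.mono_of ?_ hR') A
  intro S hS
  exact Gen.base S (Or.inr ⟨X, n, hR, hX F e he, hS⟩)

end GD
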