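import Pool.Agent.H75.AP.Op

/-!
# The conjecture for good members of families, and the criterion
-/

noncomputable section

namespace GD

/-- The conjecture for the structures generated by settled structures and by the good members of
the families which satisfy the relation. -/
theorem triples_of_good {F : Type} [Field F] [NumberField F] (e : F →+* ℂ)
    (he : ∃ d, LiesIn e d) :
    TriplesFor (Gen fun S => Settled S ∨ ∃ (X : Family) (n : X.ι), X.Rel ∧ X.IsGood n e ∧
      S = X.S n) e :=
  triples_of_families symGood goodOp e he

/-- If all members are good for all abelian fields, then all are settled if and only if the family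
satisfies the relation. -/
theorem Family.settled_iff (X : Family) (h : ∀ (n : X.ι) (F : Type) [Field F] [NumberField F]
    (e : F →+* ℂ), (∃ d, LiesIn e d) → X.IsGood n e) : (∀ k, Settled (X.S k)) ↔ X.Rel :=
  ⟨X.rel_of_settled, fun hR n => X.settled_of_rel symGood goodOp (h n) hR⟩

end GD
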