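import Pool.Agent.H65.AP.Set

/-!
# Good operators and substructures
-/

noncomputable section

namespace GD

open Complex Module NumberField

/-- The trace of an operator with values in a subspace. -/
theorem gcs_trace_range {W : Type} [AddCommGroup W] [Module ℂ W] [FiniteDimensional ℂ W]
    {M : Submodule ℂ W} {f : Module.End ℂ W} (h : ∀ x, f x ∈ M) :
    LinearMap.trace ℂ W f = LinearMap.trace ℂ M (f.restrict fun x (_ : x ∈ M) => h x) :=
  LinearMap.trace_comp_comm' (f.codRestrict M h) M.subtype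

/-- The trace of an operator which respects a decomposition. -/
theorem gcs_trace_compl {W : Type} [AddCommGroup W] [Module ℂ W] [FiniteDimensional ℂ W]
    {M M' : Submodule ℂ W} (hc : IsCompl M M') {f : Module.End ℂ W} (h : ∀ x ∈ M, f x ∈ M)
    (h' : ∀ x ∈ M', f x ∈ M') : LinearMap.trace ℂ W f =
      LinearMap.trace ℂ M (f.restrict h) + LinearMap.trace ℂ M' (f.restrict h') := by
  have h1 := gc_trOn_sup h h' hc.disjoint
  rw [trOn_of_stable h, trOn_of_stable h', hc.sup_eq_top,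
    trOn_of_stable (fun _ _ => Submodule.mem_top)] at h1
  rw [← h1, ← LinearMap.trace_conj' (f.restrict fun x (_ : x ∈ (⊤ : Submodule ℂ W)) =>
    Submodule.mem_top) Submodule.topEquiv]
  rfl

variable {S : Str} {M M' : Submodule ℚ S.W} (hM : IsSub S M) (hM' : IsSub S M') {D : ℕ}
  [NeZero D] {δ : Derivation Qbar ℂ ℂ} {c : (ZMod D)ˣ → ℂ}

theorem subStr_A (x : (subStr S M hM).W) :
    subInc S M hM ((subStr S M hM).A δ x) = S.A δ (subInc S M hM x) :=
  (A_nat δ (subInc S M hM) (subInc_isHom S M hM).betti (subInc_isHom S M hM).deRham x).symm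

theorem subStr_hOp (x : (subStr S M hM).W) :
    subInc S M hM (DT.hOp (subStr S M hM) x) = DT.hOp S (subInc S M hM x) :=
  (DT.isNat_hOp.nat _ _ _ (subInc_isHom S M hM) x).symm

/-- An operator with values in a substructure is good if its restriction is good. -/
theorem good_of_part {y : Module.End ℂ S.W} (hy : ∀ x, y x ∈ S.cx M)
    (h : GA.Good (subStr S M hM) D δ c (subEnd S M hM y fun x _ => hy x)) :
    GA.Good S D δ c y := by
  have key : ∀ (X : Module.End ℂ S.W) (X' : Module.End ℂ (subStr S M hM).W),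
      (∀ x, subInc S M hM (X' x) = X (subInc S M hM x)) →
      LinearMap.trace ℂ S.W (X * y) = LinearMap.trace ℂ (subStr S M hM).W
        (X' * subEnd S M hM y fun x _ => hy x) := by
    intro X X' hX
    have h1 : ∀ x, (X * y) x ∈ S.cx M := by
      intro x
      have h2 := hX ⟨y x, hy x⟩
      change X (y x) ∈ _
      change _ = X (y x) at h2
      rw [← h2]
      exact (X' ⟨y x, hy x⟩).2
    rw [gcs_trace_range h1]
    congr 1
    apply LinearMap.ext
    intro x
    apply Subtype.ext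
    exact (hX (subEnd S M hM y (fun x _ => hy x) x)).symm
  obtain ⟨t, h1, h2⟩ := h
  refine ⟨t, ?_, ?_⟩
  · rw [h1, key _ _ (subStr_hOp hM)]
  · rw [key _ _ (subStr_A hM), h2]

/-- An operator which respects a decomposition and which is good, with a good restriction to the
first part, has a good restriction to the second part. -/
theorem good_compl (hc : IsCompl (S.cx M) (S.cx M')) {y : Module.End ℂ S.W}
    (hy : ∀ x ∈ S.cx M, y x ∈ S.cx M) (hy' : ∀ x ∈ S.cx M', y x ∈ S.cx M')
    (h : GA.Good S D δ c y) (h1 : GA.Good (subStr S M hM) D δ c (subEnd S M hM y hy)) :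
    GA.Good (subStr S M' hM') D δ c (subEnd S M' hM' y hy') := by
  have key : ∀ (X : Module.End ℂ S.W) (X₁ : Module.End ℂ (subStr S M hM).W)
      (X₂ : Module.End ℂ (subStr S M' hM').W),
      (∀ x, subInc S M hM (X₁ x) = X (subInc S M hM x)) →
      (∀ x, subInc S M' hM' (X₂ x) = X (subInc S M' hM' x)) →
      LinearMap.trace ℂ S.W (X * y) =
        LinearMap.trace ℂ (subStr S M hM).W (X₁ * subEnd S M hM y hy) +
        LinearMap.trace ℂ (subStr S M' hM').W (X₂ * subEnd S M' hM' y hy') := by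
    intro X X₁ X₂ hX hX'
    have h3 : ∀ x ∈ S.cx M, (X * y) x ∈ S.cx M := by
      intro x hx
      have h4 := hX ⟨y x, hy x hx⟩
      change _ = X (y x) at h4
      change X (y x) ∈ _
      rw [← h4]
      exact (X₁ ⟨y x, hy x hx⟩).2
    have h3' : ∀ x ∈ S.cx M', (X * y) x ∈ S.cx M' := by
      intro x hx
      have h4 := hX' ⟨y x, hy' x hx⟩
      change _ = X (y x) at h4
      change X (y x) ∈ _
      rw [← h4]
      exact (X₂ ⟨y x, hy' x hx⟩).2
    rw [gcs_trace_compl hc h3 h3']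
    congr 2
    · apply LinearMap.ext
      intro x
      apply Subtype.ext
      exact (hX (subEnd S M hM y hy x)).symm
    · apply LinearMap.ext
      intro x
      apply Subtype.ext
      exact (hX' (subEnd S M' hM' y hy' x)).symm
  obtain ⟨t, ht1, ht2⟩ := h
  obtain ⟨u, hu1, hu2⟩ := h1
  refine ⟨t - u, ?_, ?_⟩
  · have h5 := key _ _ _ (subStr_hOp hM) (subStr_hOp hM')
    rw [← ht1, ← hu1] at h5
    have h6 : ((t - u : cyc D) : ℂ) = (t : ℂ) - (u : ℂ) := rfl
    rw [h6, h5]
    ring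
  · have h5 := key _ _ _ (subStr_A hM (δ := δ)) (subStr_A hM' (δ := δ))
    rw [ht2, hu2] at h5
    have h6 : ∀ l : (ZMod D)ˣ, ((sAut D l⁻¹ (t - u) : cyc D) : ℂ) =
        ((sAut D l⁻¹ t : cyc D) : ℂ) - ((sAut D l⁻¹ u : cyc D) : ℂ) := by
      intro l
      rw [map_sub]
      rfl
    simp only [h6, mul_sub, Finset.sum_sub_distrib]
    rw [h5]
    ring

/-- The automorphisms of finite order of a structure. -/
def finAut (S : Str) : Set (Module.End ℂ S.W) :=
  {g | IsHom S S g ∧ ∃ m, 0 < m ∧ g ^ m = 1}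

/-- Rational combinations of automorphisms of finite order are good on a substructure generated by
settled structures. -/
theorem good_settled (P : Pol S) (hG : Gen Settled (subStr S M hM))
    (hst : ∀ f, IsHom S S f → ∀ x ∈ S.cx M, f x ∈ S.cx M) {y : Module.End ℂ S.W}
    (hy : y ∈ Submodule.span ℚ (finAut S)) : ∃ m, 0 < m ∧ ∀ (D : ℕ) [NeZero D], m ∣ D → 3 ≤ D →
      ∀ δ c, GA.IsCoef δ D c → ∀ h : ∀ x ∈ S.cx M, y x ∈ S.cx M,
        GA.Good (subStr S M hM) D δ c (subEnd S M hM y h) := by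
  obtain ⟨y0, hy0, hyx⟩ := exists_sub_span hM (G := finAut S) (fun g hg => hst g hg.1) hy
  have PT := subPol S M hM P
  have h1 : ∀ u ∈ {u : Module.End ℂ (subStr S M hM).W | ∃ (g : Module.End ℂ S.W)
      (hg : g ∈ finAut S), u = subEnd S M hM g (hst g hg.1)},
      IsHom (subStr S M hM) (subStr S M hM) u := by
    rintro _ ⟨g, hg, rfl⟩
    exact subEnd_isHom S M hM hg.1 _
  have h2 : ∀ u ∈ {u : Module.End ℂ (subStr S M hM).W | ∃ (g : Module.End ℂ S.W)
      (hg : g ∈ finAut S), u = subEnd S M hM g (hst g hg.1)}, ∃ m, 0 < m ∧ u ^ m = 1 ∧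
      ∀ (N : ℕ) [NeZero N], 3 ≤ N → m ∣ N → ∀ a,
        RelPiece N (subStr S M hM) (eigPiece N (subStr S M hM) u a) := by
    rintro _ ⟨g, hg, rfl⟩
    obtain ⟨hgh, m, hm, hgm⟩ := hg
    refine ⟨m, hm, subEnd_pow S M hM _ hgm, fun N _ hN hmN a => ?_⟩
    have hgN : g ^ N = 1 := by
      obtain ⟨k, rfl⟩ := hmN
      rw [pow_mul, hgm, one_pow]
    exact GA.rel_eigPiece hG PT (fun F _ _ e he => triples_settled e he)
      (subEnd_isHom S M hM hgh (hst g hgh)) (subEnd_pow S M hM (hst g hgh) hgN) a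
  obtain ⟨m, hm, hgood⟩ := GA.good_of_span PT h1 h2 hy0
  refine ⟨m, hm, fun D _ hmD hD δ c hc h => ?_⟩
  have h3 : subEnd S M hM y h = y0 := by
    apply LinearMap.ext
    intro x
    apply subInc_inj S M hM
    rw [subEnd_inc, hyx]
  rw [h3]
  exact hgood D hmD hD δ c hc

/-- Symmetric operators are good. -/
def SymGood : Prop := ∀ (S : Str), Nonempty (Pol S) → ∀ z ∈ symOps S, ∀ (D : ℕ) [NeZero D],
  3 ≤ D → ∀ δ c, GA.IsCoef δ D c → GA.Good S D δ c z

theorem isHom_sym {z : Module.End ℂ S.W} (hz : z ∈ symOps S) : IsHom S S z :=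
  GA.isHom_of_span (fun g hg => hg.1) hz

/-- The restriction of a symmetric operator is symmetric. -/
theorem sym_sub (hst : ∀ f, IsHom S S f → ∀ x ∈ S.cx M, f x ∈ S.cx M)
    {z : Module.End ℂ S.W} (hz : z ∈ symOps S) (h : ∀ x ∈ S.cx M, z x ∈ S.cx M) :
    subEnd S M hM z h ∈ symOps (subStr S M hM) := by
  obtain ⟨z0, hz0, hzx⟩ := exists_sub_span hM
    (G := {z | IsHom S S z ∧ ∃ P : Pol S, ∀ x y, P.E (z x) y = P.E x (z y)})
    (fun g hg => hst g hg.1) hz
  have h3 : subEnd S M hM z h = z0 := by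
    apply LinearMap.ext
    intro x
    apply subInc_inj S M hM
    rw [subEnd_inc, hzx]
  rw [h3]
  refine Submodule.span_mono ?_ hz0
  rintro _ ⟨g, hg, rfl⟩
  obtain ⟨hgh, P, hP⟩ := hg
  exact ⟨subEnd_isHom S M hM hgh _, subPol S M hM P, fun x y => hP _ _⟩

/-- The relation for an action which is, modulo symmetric endomorphisms and the settled part, given
by good rational combinations of automorphisms of finite order. -/
theorem factor_of_good (hsym : SymGood) (P : Pol S) {K : Type} [Field K] [NumberField K] {e : K →+* ℂ}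
    (he : ∃ d, LiesIn e d) {κ : K →ₙ+* Module.End ℂ S.W} (hκ : ∀ a, IsHom S S (κ a))
    (hk : ∀ a, ∃ y ∈ Submodule.span ℚ (finAut S), (∃ m, 0 < m ∧ ∀ (D : ℕ) [NeZero D], m ∣ D →
      3 ≤ D → ∀ δ c, GA.IsCoef δ D c → GA.Good S D δ c y) ∧ Near S (κ a) y) :
    FactorRelation κ e := by
  classical
  obtain ⟨M, hM, hcx, hG⟩ := exists_part Settled S
  have hst : ∀ f, IsHom S S f → ∀ x ∈ S.cx M, f x ∈ S.cx M := by
    intro f hf
    rw [hcx]
    exact fun x hx => setPart_stable hf hx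
  obtain ⟨M', hM', hc, hst'⟩ := exists_stable_compl P hM hst
  have PT := subPol S M hM P
  have P0 := subPol S M' hM' P
  choose y hy hyg z hz hyt using fun i => hk (bas K i)
  choose m hm hgood using hyg
  choose m' hm' hgood' using fun i => good_settled hM P hG hst (hy i)
  have hyh : ∀ i, IsHom S S (y i) := fun i => GA.isHom_of_span (fun g hg => hg.1) (hy i)
  have hzh : ∀ i, IsHom S S (z i) := fun i => isHom_sym (hz i)
  have hyz : ∀ i, IsHom S S (y i + z i) := fun i => GA.isHom_add (hyh i) (hzh i)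
  have hcd := liesIn_conductor he
  let D : ℕ := conductor e * (3 * ∏ i, (m i * m' i))
  have hD1 : 0 < ∏ i, (m i * m' i) := Finset.prod_pos fun i _ => Nat.mul_pos (hm i) (hm' i)
  have hD0 : 0 < 3 * ∏ i, (m i * m' i) := Nat.mul_pos (by norm_num) hD1
  have : NeZero D := ⟨(Nat.mul_pos hcd.1 hD0).ne'⟩
  have : NeZero (conductor e) := ⟨hcd.1.ne'⟩
  have : NeZero (3 * ∏ i, (m i * m' i)) := ⟨hD0.ne'⟩
  have hD3 : 3 ≤ D := by
    have h5 : 3 * 1 ≤ 3 * ∏ i, (m i * m' i) := Nat.mul_le_mul_left 3 hD1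
    calc 3 = 1 * (3 * 1) := rfl
      _ ≤ conductor e * (3 * ∏ i, (m i * m' i)) := Nat.mul_le_mul hcd.1 h5
  have hD : LiesIn e D := ⟨NeZero.pos D, fun x => cyc_le _ _ (hcd.2 x)⟩
  have hdvd : ∀ i, m i * m' i ∣ D := fun i =>
    ((Finset.dvd_prod_of_mem (fun i => m i * m' i) (Finset.mem_univ i)).trans
      (Dvd.intro_left 3 rfl)).trans (Dvd.intro_left _ rfl)
  -- the two restrictions of the action
  have hsT : ∀ a, ∀ x ∈ S.cx M, κ a x ∈ S.cx M := fun a => hst _ (hκ a)
  have hs0 : ∀ a, ∀ x ∈ S.cx M', κ a x ∈ S.cx M' := fun a => hst' _ (hκ a)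
  have hkT := subAct_isHom M hM hκ hsT
  have hk0 := subAct_isHom M' hM' hκ hs0
  have hmul : ∀ i, subAct M' hM' κ hs0 (bas K i) =
      subEnd S M' hM' (y i + z i) (hst' (y i + z i) (hyz i)) := by
    intro i
    apply LinearMap.ext
    intro x
    apply subInc_inj S M' hM'
    rw [subEnd_inc]
    change κ (bas K i) (subInc S M' hM' x) = _
    have h3 : κ (bas K i) (subInc S M' hM' x) - (y i + z i) (subInc S M' hM' x) ∈ S.cx M := by
      rw [hcx, LinearMap.add_apply, ← sub_sub]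
      exact hyt i _
    have h4 : κ (bas K i) (subInc S M' hM' x) - (y i + z i) (subInc S M' hM' x) ∈ S.cx M' :=
      sub_mem (hs0 _ _ x.2) (hst' (y i + z i) (hyz i) _ x.2)
    exact sub_eq_zero.1 (Submodule.disjoint_def.1 hc.disjoint _ h3 h4)
  have hr0 : RelPiece D (subStr S M' hM')
      (fun l => eigenpart (subAct M' hM' κ hs0) (phi e hD.2 l)) :=
    GA.relPiece_of_good hk0 hD.2 fun δ c hcf i => by
      rw [hmul]
      refine good_compl hM hM' hc (hst (y i + z i) (hyz i)) _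
        (GA.good_add (hgood i D ((Dvd.intro _ rfl).trans (hdvd i)) hD3 δ c hcf)
          (hsym S ⟨P⟩ (z i) (hz i) D hD3 δ c hcf)) ?_
      have h5 : subEnd S M hM (y i + z i) (hst (y i + z i) (hyz i)) =
          subEnd S M hM (y i) (hst (y i) (hyh i)) + subEnd S M hM (z i) (hst (z i) (hzh i)) :=
        LinearMap.ext fun x => rfl
      rw [h5]
      exact GA.good_add (hgood' i D ((Dvd.intro_left _ rfl).trans (hdvd i)) hD3 δ c hcf _)
        (hsym _ ⟨PT⟩ _ (sym_sub hM hst (hz i) _) D hD3 δ c hcf)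
  have hfT : IsFieldPiece D (subStr S M hM) e (subAct M hM κ hsT)
      (fun l => eigenpart (subAct M hM κ hsT) (phi e hD.2 l)) :=
    fun l τ hτ => by rw [(isPhi_iff e hD.2 l τ).1 hτ]
  have hf0 : IsFieldPiece D (subStr S M' hM') e (subAct M' hM' κ hs0)
      (fun l => eigenpart (subAct M' hM' κ hs0) (phi e hD.2 l)) :=
    fun l τ hτ => by rw [(isPhi_iff e hD.2 l τ).1 hτ]
  have hf : IsFieldPiece D S e κ (fun l => eigenpart κ (phi e hD.2 l)) :=
    fun l τ hτ => by rw [(isPhi_iff e hD.2 l τ).1 hτ]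
  have hrT := GA.rel_fieldPiece hG PT (triples_settled e he) hD hkT hfT
  have hpT := isPiece_field ⟨PT⟩ hD hkT hfT
  have hp0 := isPiece_field ⟨P0⟩ hD hk0 hf0
  have hp := isPiece_field ⟨P⟩ hD hκ hf
  have hinv := defect_invariant gammaSpec hD3 (N := D) (cls := Pool.Agent.H11.GD.cls)
  have e1 := hinv.split ⟨P⟩ hc hpT hp0
  have e2 : (fun l => eigenpart κ (phi e hD.2 l)) = fun l =>
      (eigenpart (subAct M hM κ hsT) (phi e hD.2 l)).map (subInc S M hM) ⊔
        (eigenpart (subAct M' hM' κ hs0) (phi e hD.2 l)).map (subInc S M' hM') :=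
    funext fun l => gcs_part_split hM hM' hc hsT hs0 _
  rw [← e2, (relPiece_iff gammaSpec hD3 hpT).1 hrT, (relPiece_iff gammaSpec hD3 hp0).1 hr0,
    add_zero] at e1
  exact GA.factorRelation_of_piece P hκ hD hD3 hf ((relPiece_iff gammaSpec hD3 hp).2 e1)

end GD
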