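import Pool.Agent.H65.AP.Split
import Pool.Agent.H26.FM.Cen
import Pool.Agent.H27.GD.Tate

/-!
# Settled structures
-/

noncomputable section

namespace GD

open Complex Module NumberField

/-- The conjecture for the structures generated by settled structures. -/
theorem triples_settled {F : Type} [Field F] [NumberField F] (e : F →+* ℂ)
    (he : ∃ d, LiesIn e d) : TriplesFor (Gen Settled) e := by
  have hc : CentralFor Settled e := by
    intro K _ _ i him hG hc S hS κ hκ
    exact central_of_triples (C₀ := fun T => T = S) (fun T hT => by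
      rw [hT]
      exact hS.1) he (hS.2 F e he) K i him hG hc S rfl κ hκ
  exact fun R hR A => det_suffices (fun S hS => hS.1) e he
    (detFor_of_central (fun S hS => hS.1) hc) hR A

/-- A polarised structure generated by settled structures is settled. -/
theorem settled_of_gen {R : Str} (hP : Nonempty (Pol R)) (hR : Gen Settled R) : Settled R :=
  ⟨hP, fun F _ _ e he R' hR' A => triples_settled e he R' (Gen.mono_of (fun S hS => by
    rw [hS]
    exact hR) hR') A⟩

/-- The polarisation of the Tate structure. -/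
def tatePol (m : ℕ) : Pol (DT.Tate m) where
  E := LinearMap.mul ℂ ℂ
  rat := by
    intro x hx y hy
    obtain ⟨q, rfl⟩ := DT.mem_tate_B.1 hx
    obtain ⟨r, rfl⟩ := DT.mem_tate_B.1 hy
    exact ⟨q * r, by
      push_cast
      rfl⟩
  dR := by
    intro x hx y hy
    obtain ⟨a, rfl⟩ := DT.mem_tate_D.1 hx
    obtain ⟨b, rfl⟩ := DT.mem_tate_D.1 hy
    refine ⟨(a : ℂ) * b, (mem_algebraicClosure_iff.1 a.2).mul (mem_algebraicClosure_iff.1 b.2), ?_⟩
    change ((a : ℂ) * (2 * Real.pi * I) ^ m) * ((b : ℂ) * (2 * Real.pi * I) ^ m) =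
      (2 * Real.pi * I) ^ (2 * m) * ((a : ℂ) * b)
    ring
  orth := by
    intro p q hpq x hx y hy
    have hw : (DT.Tate m).wt = 2 * m := rfl
    rcases DT.mem_tate_hodge.1 hx with h1 | h1
    · rcases DT.mem_tate_hodge.1 hy with h2 | h2
      · exact absurd (by rw [h1, h2, hw]; ring) hpq
      · rw [h2]
        exact mul_zero (M₀ := ℂ) x
    · rw [h1]
      exact zero_mul (M₀ := ℂ) y
  pos := by
    intro p _ x hx hx0
    have hw : (DT.Tate m).wt = 2 * m := rfl
    rcases DT.mem_tate_hodge.1 hx with h1 | h1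
    · refine ⟨Complex.normSq x, Complex.normSq_pos.2 hx0, ?_⟩
      have h2 : (2 * (p : ℤ) - ((DT.Tate m).wt : ℤ)) = 0 := by
        rw [h1, hw]
        push_cast
        ring
      rw [h2, zpow_zero, one_mul]
      exact Complex.mul_conj x
    · exact absurd h1 hx0

/-- Tate structures are settled. -/
theorem settled_tate (m : ℕ) : Settled (DT.Tate m) := by
  refine ⟨⟨tatePol m⟩, fun F _ _ e he R hR A => ?_⟩
  have hP : ∀ S : Str, (fun T => T = DT.Tate m) S → Nonempty (Pol S) := fun S hS => by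
    rw [show S = DT.Tate m from hS]
    exact ⟨tatePol m⟩
  refine det_suffices hP e he (detFor_of_central hP ?_) hR A
  intro K _ _ i him _ _ S hS κ hκ
  exfalso
  have hS' : S = DT.Tate m := hS
  subst hS'
  have hB : ∀ a, ∃ q : ℚ, (q : ℂ) = κ a (1 : ℂ) := fun a =>
    DT.mem_tate_B.1 ((hκ.2.1 a).betti _ (DT.mem_tate_B.2 ⟨1, by norm_num⟩))
  choose c hc using hB
  have hlin : ∀ (a : K) (z : ℂ), κ a z = z * (c a : ℂ) := by
    intro a z
    have h1 : κ a (z • (1 : ℂ)) = z • κ a (1 : ℂ) := map_smul (κ a) z (1 : ℂ)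
    rw [hc]
    refine Eq.trans ?_ h1
    exact congrArg (κ a) (by rw [smul_eq_mul, mul_one])
  have hmul : ∀ a b, c (a * b) = c a * c b := by
    intro a b
    have h1 : κ (a * b) (1 : ℂ) = κ a (κ b (1 : ℂ)) := by
      rw [map_mul]
      rfl
    rw [← hc, ← hc b, hlin a] at h1
    have h2 : (c (a * b) : ℂ) = ((c b * c a : ℚ) : ℂ) := by
      rw [Rat.cast_mul]
      exact h1
    rw [mul_comm (c a)]
    exact_mod_cast h2
  have hadd : ∀ a b, c (a + b) = c a + c b := by
    intro a b
    have h1 : κ (a + b) (1 : ℂ) = κ a (1 : ℂ) + κ b (1 : ℂ) := by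
      rw [map_add]
      rfl
    rw [← hc, ← hc a, ← hc b] at h1
    have h2 : (c (a + b) : ℂ) = ((c a + c b : ℚ) : ℂ) := by
      rw [Rat.cast_add]
      exact h1
    exact_mod_cast h2
  have h1 : c 1 = 1 := by
    have h2 : c 1 * c 1 = c 1 := by rw [← hmul, mul_one]
    have h3 : c 1 ≠ 0 := by
      intro h0
      apply hκ.1
      apply LinearMap.ext
      intro z
      change κ 1 z = 0
      rw [hlin, h0, Rat.cast_zero]
      exact mul_zero (M₀ := ℂ) z
    exact mul_right_cancel₀ h3 (by rw [h2, one_mul])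
  have h0 : c 0 = 0 := by
    have h2 := hadd 0 0
    rw [add_zero] at h2
    linarith
  let f : K →+* ℚ :=
    { toFun := c
      map_one' := h1
      map_mul' := hmul
      map_zero' := h0
      map_add' := hadd }
  obtain ⟨x, hx⟩ := him
  apply hx
  have h3 : x = algebraMap ℚ K (f x) := by
    apply f.injective
    have h4 : f (algebraMap ℚ K (f x)) = f x := by
      rw [eq_ratCast (algebraMap ℚ K) (f x), map_ratCast]
      rfl
    exact h4.symm
  rw [h3, eq_ratCast (algebraMap ℚ K) (f x), map_ratCast, map_ratCast]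
  exact Complex.ratCast_im _

/-- The part of a structure reached from a class is a substructure generated by the class. -/
theorem exists_part (C : Str → Prop) (S : Str) : ∃ (M : Submodule ℚ S.W) (hM : IsSub S M),
    S.cx M = Submodule.span ℂ {x | ∃ (T : Str) (f : T.W →ₗ[ℂ] S.W) (t : T.W), Gen C T ∧
      IsHom T S f ∧ x = f t} ∧ Gen C (subStr S M hM) := by
  classical
  let s : Set S.W := {x | ∃ (T : Str) (f : T.W →ₗ[ℂ] S.W) (t : T.W), Gen C T ∧
    IsHom T S f ∧ x = f t}
  obtain ⟨b, hb1, hb2, hb3⟩ := exists_linearIndependent ℂ s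
  have hfin : b.Finite := hb3.setFinite
  have : Fintype b := hfin.fintype
  let e : Fin (Fintype.card b) ≃ b := (Fintype.equivFin b).symm
  choose T f t hT hf ht using fun k : Fin (Fintype.card b) => hb1 (e k).2
  let M : Submodule ℚ S.W := ⨆ k, imgQ (f k) (T k).B
  have hM : IsSub S M := isSub_iSup fun k => isSub_img (hf k) isSub_top
  have hcx : ∀ k, S.cx (imgQ (f k) (T k).B) = LinearMap.range (f k) := by
    intro k
    rw [cx_imgQ, Str.cx_B, Submodule.map_top]
  have hle : ∀ k x, f k x ∈ S.cx M := by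
    intro k x
    have h1 : f k x ∈ S.cx (imgQ (f k) (T k).B) := by
      rw [hcx]
      exact ⟨x, rfl⟩
    exact cx_mono (le_iSup (fun k => imgQ (f k) (T k).B) k) h1
  have hcxM : S.cx M = Submodule.span ℂ s := by
    apply le_antisymm
    · apply cx_iSup_le
      intro k
      rw [hcx]
      rintro _ ⟨x, rfl⟩
      exact Submodule.subset_span ⟨T k, f k, x, hT k, hf k, rfl⟩
    · rw [← hb2, Submodule.span_le]
      intro x hx
      have h1 := ht (e.symm ⟨x, hx⟩)
      rw [Equiv.apply_symm_apply] at h1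
      rw [show x = _ from h1]
      exact hle _ _
  refine ⟨M, hM, hcxM, ?_⟩
  refine Gen.lin (subStr S M hM) (Fintype.card b) T (fun k => (f k).codRestrict (S.cx M) (hle k))
    hT (fun k => ⟨(hf k).wt, fun x hx => (hf k).betti x hx, fun x hx => (hf k).deRham x hx,
      fun p x hx => (hf k).hodge p x hx⟩) ?_
  rw [eq_top_iff]
  rintro ⟨x, hx⟩ -
  have h1 : S.cx M ≤ (⨆ k, LinearMap.range ((f k).codRestrict (S.cx M) (hle k))).map
      (S.cx M).subtype := by
    apply cx_iSup_le
    intro k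
    rw [hcx, Submodule.map_iSup]
    refine le_trans ?_ (le_iSup _ k)
    rintro _ ⟨y, rfl⟩
    exact ⟨⟨f k y, hle k y⟩, ⟨y, rfl⟩, rfl⟩
  obtain ⟨y, hy, hyx⟩ := h1 hx
  have h3 : y = ⟨x, hx⟩ := Subtype.ext hyx
  rwa [h3] at hy

theorem setPart_stable {S S' : Str} {f : S.W →ₗ[ℂ] S'.W} (hf : IsHom S S' f) {x : S.W}
    (hx : x ∈ setPart S) : f x ∈ setPart S' := by
  induction hx using Submodule.span_induction with
  | mem x hx =>
    obtain ⟨T, f', t, hT, hf', rfl⟩ := hx
    exact Submodule.subset_span ⟨T, f.comp f', t, hT, hf.comp hf', rfl⟩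
  | zero =>
    rw [map_zero]
    exact zero_mem _
  | add x y _ _ hx hy =>
    rw [map_add]
    exact add_mem hx hy
  | smul c x _ hx =>
    rw [map_smul]
    exact Submodule.smul_mem _ c hx

/-- The defect of the eigenspaces of an automorphism which are contained in the settled part. -/
theorem defect_of_le {S : Str} {N : ℕ} [NeZero N] (hN3 : 3 ≤ N) (hP : Nonempty (Pol S))
    {g : Module.End ℂ S.W} (hg : IsHom S S g) (hN : g ^ N = 1) (a : ZMod N)
    (h : ∀ l, eigPiece N S g a l ≤ setPart S) :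
    defect Pool.Agent.H11.GD.cls N S (eigPiece N S g a) = 0 := by
  have hδ := defect_invariant gammaSpec hN3 (N := N) (cls := Pool.Agent.H11.GD.cls)
  obtain ⟨M, hM, hcx, hG⟩ := exists_part Settled S
  have hst : ∀ x ∈ S.cx M, g x ∈ S.cx M := by
    rw [hcx]
    exact fun x hx => setPart_stable hg hx
  have h1 : eigPiece N S g a = fun l =>
      (eigPiece N (subStr S M hM) (subEnd S M hM g hst) a l).map (subInc S M hM) := by
    funext l
    apply le_antisymm
    · intro x hx
      have h2 := h l hx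
      rw [setPart, ← hcx] at h2
      exact ⟨⟨x, h2⟩, (mem_sub_eigPiece M hM hst).2 hx, rfl⟩
    · rintro _ ⟨x, hx, rfl⟩
      exact (mem_sub_eigPiece M hM hst).1 hx
  have hP' : Nonempty (Pol (subStr S M hM)) := ⟨subPol S M hM hP.some⟩
  have hg' := subEnd_isHom S M hM hg hst
  have hN' := subEnd_pow S M hM hst hN
  rw [h1, hδ.image (subInc_isHom S M hM) (subInc_inj S M hM) hP (isPiece_eig hP' hg' hN' a)]
  exact (relPiece_iff gammaSpec hN3 (isPiece_eig hP' hg' hN' a)).1
    (GA.rel_eigPiece hG hP'.some (fun F _ _ e he => triples_settled e he) hg' hN' a)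

/-- Restrictions of rational combinations. -/
theorem exists_sub_span {S : Str} {M : Submodule ℚ S.W} (hM : IsSub S M)
    {G : Set (Module.End ℂ S.W)} (hG : ∀ g ∈ G, ∀ x ∈ S.cx M, g x ∈ S.cx M)
    {y : Module.End ℂ S.W} (hy : y ∈ Submodule.span ℚ G) : ∃ y₀ ∈ Submodule.span ℚ
      {u : Module.End ℂ (subStr S M hM).W | ∃ (g : Module.End ℂ S.W) (hg : g ∈ G),
        u = subEnd S M hM g (hG g hg)}, ∀ x, subInc S M hM (y₀ x) = y (subInc S M hM x) := by
  induction hy using Submodule.span_induction with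
  | mem g hg => exact ⟨_, Submodule.subset_span ⟨g, hg, rfl⟩, fun x => rfl⟩
  | zero => exact ⟨0, zero_mem _, fun x => rfl⟩
  | add x y _ _ hx hy =>
    obtain ⟨u, hu, hux⟩ := hx
    obtain ⟨v, hv, hvy⟩ := hy
    refine ⟨u + v, add_mem hu hv, fun z => ?_⟩
    rw [LinearMap.add_apply, map_add, hux, hvy]
    rfl
  | smul q x _ hx =>
    obtain ⟨u, hu, hux⟩ := hx
    refine ⟨q • u, Submodule.smul_mem _ q hu, fun z => ?_⟩
    rw [LinearMap.smul_apply, LinearMap.smul_apply, ← rat_smul', map_smul, hux, rat_smul']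

/-- The relation for an action which is, modulo the settled part, a rational combination of
automorphisms of finite order for whose eigenspaces the relation holds. -/
theorem factor_of_setPart {S : Str} (P : Pol S) {G : Set (Module.End ℂ S.W)}
    (hG1 : ∀ g ∈ G, IsHom S S g)
    (hG2 : ∀ g ∈ G, ∃ m, 0 < m ∧ g ^ m = 1 ∧ ∀ (N : ℕ) [NeZero N], 3 ≤ N → m ∣ N → ∀ a,
      RelPiece N S (eigPiece N S g a))
    {K : Type} [Field K] [NumberField K] {e : K →+* ℂ} (he : ∃ d, LiesIn e d)
    {κ : K →ₙ+* Module.End ℂ S.W} (hκ : ∀ a, IsHom S S (κ a))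
    (hk : ∀ a, ∃ y ∈ Submodule.span ℚ G, ∀ x, κ a x - y x ∈ setPart S) :
    FactorRelation κ e := by
  classical
  obtain ⟨M, hM, hcx, hG⟩ := exists_part Settled S
  have hst : ∀ f, IsHom S S f → ∀ x ∈ S.cx M, f x ∈ S.cx M := by
    intro f hf
    rw [hcx]
    exact fun x hx => setPart_stable hf hx
  obtain ⟨M', hM', hc, hst'⟩ := exists_stable_compl P hM hst
  have PT := subPol S M hM P
  have P0 := subPol S M' hM' P
  let G0 : Set (Module.End ℂ (subStr S M' hM').W) := {u | ∃ (g : Module.End ℂ S.W)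
    (hg : g ∈ G), u = subEnd S M' hM' g (hst' g (hG1 g hg))}
  have h1 : ∀ u ∈ G0, IsHom (subStr S M' hM') (subStr S M' hM') u := by
    rintro _ ⟨g, hg, rfl⟩
    exact subEnd_isHom S M' hM' (hG1 g hg) _
  have h2 : ∀ u ∈ G0, ∃ m, 0 < m ∧ u ^ m = 1 ∧ ∀ (N : ℕ) [NeZero N], 3 ≤ N → m ∣ N → ∀ a,
      RelPiece N (subStr S M' hM') (eigPiece N (subStr S M' hM') u a) := by
    rintro _ ⟨g, hg, rfl⟩
    have hgh := hG1 g hg
    obtain ⟨m, hm, hgm, hrel⟩ := hG2 g hg
    refine ⟨m, hm, subEnd_pow S M' hM' _ hgm, fun N _ hN hmN a => ?_⟩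
    have hgN : g ^ N = 1 := by
      obtain ⟨k, rfl⟩ := hmN
      rw [pow_mul, hgm, one_pow]
    have hT := isPiece_eig ⟨PT⟩ (subEnd_isHom S M hM hgh (hst g hgh))
      (subEnd_pow S M hM (hst g hgh) hgN) a
    have h0 := isPiece_eig ⟨P0⟩ (subEnd_isHom S M' hM' hgh (hst' g hgh))
      (subEnd_pow S M' hM' (hst' g hgh) hgN) a
    have hinv := defect_invariant gammaSpec hN (N := N) (cls := Pool.Agent.H11.GD.cls)
    have e1 := hinv.split ⟨P⟩ hc hT h0
    rw [← gcs_eig_split hM hM' hc (hst g hgh) (hst' g hgh) a,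
      (relPiece_iff gammaSpec hN (isPiece_eig ⟨P⟩ hgh hgN a)).1 (hrel N hN hmN a),
      (relPiece_iff gammaSpec hN hT).1 (GA.rel_eigPiece hG PT
        (fun F _ _ e he => triples_settled e he) (subEnd_isHom S M hM hgh (hst g hgh))
        (subEnd_pow S M hM (hst g hgh) hgN) a), zero_add] at e1
    exact (relPiece_iff gammaSpec hN h0).2 e1.symm
  choose y hy hyt using fun i => hk (bas K i)
  choose y0 hy0 hyi using fun i => exists_sub_span hM' (G := G)
    (fun g hg => hst' g (hG1 g hg)) (hy i)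
  choose m hm hgood using fun i => GA.good_of_span P0 h1 h2 (hy0 i)
  have hcd := liesIn_conductor he
  let D : ℕ := conductor e * (3 * ∏ i, m i)
  have hD0 : 0 < 3 * ∏ i, m i := Nat.mul_pos (by norm_num) (Finset.prod_pos fun i _ => hm i)
  have : NeZero D := ⟨(Nat.mul_pos hcd.1 hD0).ne'⟩
  have : NeZero (conductor e) := ⟨hcd.1.ne'⟩
  have : NeZero (3 * ∏ i, m i) := ⟨hD0.ne'⟩
  have hD3 : 3 ≤ D := by
    have h4 : 0 < ∏ i, m i := Finset.prod_pos fun i _ => hm i
    have h5 : 3 * 1 ≤ 3 * ∏ i, m i := Nat.mul_le_mul_left 3 h4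
    calc 3 = 1 * (3 * 1) := rfl
      _ ≤ conductor e * (3 * ∏ i, m i) := Nat.mul_le_mul hcd.1 h5
  have hD : LiesIn e D := ⟨NeZero.pos D, fun x => cyc_le _ _ (hcd.2 x)⟩
  -- the two restrictions of the action
  have hsT : ∀ a, ∀ x ∈ S.cx M, κ a x ∈ S.cx M := fun a => hst _ (hκ a)
  have hs0 : ∀ a, ∀ x ∈ S.cx M', κ a x ∈ S.cx M' := fun a => hst' _ (hκ a)
  have hkT := subAct_isHom M hM hκ hsT
  have hk0 := subAct_isHom M' hM' hκ hs0
  have hmul : ∀ i, subAct M' hM' κ hs0 (bas K i) = y0 i := by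
    intro i
    apply LinearMap.ext
    intro x
    apply subInc_inj S M' hM'
    rw [hyi]
    change κ (bas K i) (subInc S M' hM' x) = _
    have h3 : κ (bas K i) (subInc S M' hM' x) - y i (subInc S M' hM' x) ∈ S.cx M := by
      rw [hcx]
      exact hyt i _
    have h4 : κ (bas K i) (subInc S M' hM' x) - y i (subInc S M' hM' x) ∈ S.cx M' := by
      refine sub_mem (hs0 _ _ x.2) ?_
      rw [← hyi]
      exact (y0 i x).2
    exact sub_eq_zero.1 (Submodule.disjoint_def.1 hc.disjoint _ h3 h4)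
  have hr0 : RelPiece D (subStr S M' hM')
      (fun l => eigenpart (subAct M' hM' κ hs0) (phi e hD.2 l)) :=
    GA.relPiece_of_good hk0 hD.2 fun δ c hcf i => by
      have hmD : m i ∣ D := ((Finset.dvd_prod_of_mem m (Finset.mem_univ i)).trans
        (Dvd.intro_left 3 rfl)).trans (Dvd.intro_left _ rfl)
      rw [hmul]
      exact hgood i D hmD hD3 δ c hcf
  have hfT : IsFieldPiece D (subStr S M hM) e (subAct M hM κ hsT)
      (fun l => eigenpart (subAct M hM κ hsT) (phi e hD.2 l)) :=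
    fun l τ hτ => by rw [(isPhi_iff e hD.2 l τ).1 hτ]
  have hf0 : IsFieldPiece D (subStr S M' hM') e (subAct M' hM' κ hs0)
      (fun l => eigenpart (subAct M' hM' κ hs0) (phi e hD.2 l)) :=
    fun l τ hτ => by rw [(isPhi_iff e hD.2 l τ).1 hτ]
  have hf : IsFieldPiece D S e κ (fun l => eigenpart κ (phi e hD.2 l)) :=
    fun l τ hτ => by rw [(isPhi_iff e hD.2 l τ).1 hτ]
  have hrT := GA.rel_fieldPiece hG PT (triples_settled e he) hD hkT hfT
  have hpT := isPiece_field ⟨PT⟩ hD hkT hfT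
  have hp0 := isPiece_field ⟨P0⟩ hD hk0 hf0
  have hp := isPiece_field ⟨P⟩ hD hκ hf
  have hinv := defect_invariant gammaSpec hD3 (N := D) (cls := Pool.Agent.H11.GD.cls)
  have e1 := hinv.split ⟨P⟩ hc hpT hp0
  have e2 : (fun l => eigenpart κ (phi e hD.2 l)) = fun l =>
      (eigenpart (subAct M hM κ hsT) (phi e hD.2 l)).map (subInc S M hM) ⊔
        (eigenpart (subAct M' hM' κ hs0) (phi e hD.2 l)).map (subInc S M' hM') :=
    funext fun l => gcs_part_split hM hM' hc hsT hs0 _
  rw [← e2, (relPiece_iff gammaSpec hD3 hpT).1 hrT, (relPiece_iff gammaSpec hD3 hp0).1 hr0,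
    add_zero] at e1
  exact GA.factorRelation_of_piece P hκ hD hD3 hf ((relPiece_iff gammaSpec hD3 hp).2 e1)

end GD
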