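import Pool.Agent.H65.AP.Sub
import Pool.Agent.H75.GA.Main

/-!
# Complementary substructures
-/

noncomputable section

namespace GD

open Complex Module NumberField

section split

variable {W : Type} [AddCommGroup W] [Module ℂ W]

theorem gc_split {M M' : Submodule ℂ W} (hc : IsCompl M M') {T : Module.End ℂ W}
    (hT : ∀ x ∈ M, T x ∈ M) (hT' : ∀ x ∈ M', T x ∈ M') {c : ℂ} {u u' : W} (hu : u ∈ M)
    (hu' : u' ∈ M') (h : T (u + u') = c • (u + u')) : T u = c • u ∧ T u' = c • u' := by
  rw [map_add, smul_add] at h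
  have h1 : T u - c • u = c • u' - T u' := by
    rw [sub_eq_sub_iff_add_eq_add, h, add_comm]
  have h2 : T u - c • u ∈ M := sub_mem (hT u hu) (M.smul_mem c hu)
  have h3 : T u - c • u ∈ M' := by
    rw [h1]
    exact sub_mem (M'.smul_mem c hu') (hT' u' hu')
  have h4 : T u - c • u = 0 := (Submodule.disjoint_def.1 hc.disjoint) _ h2 h3
  refine ⟨sub_eq_zero.1 h4, ?_⟩
  rw [h4] at h1
  exact (sub_eq_zero.1 h1.symm).symm

end split

variable {S S' : Str}

theorem gcs_isTwist {f : S.W →ₗ[ℂ] S'.W} (hf : IsHom S S' f) : IsTwist S S' 0 f :=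
  ⟨by rw [mul_zero, add_zero, hf.wt], hf.betti, fun x hx => by
    rw [pow_zero, one_smul]
    exact hf.deRham x hx, fun p x hx => hf.hodge p x hx⟩

/-- The image of a piece under an injective morphism. -/
theorem gcs_piece {N : ℕ} {f : S.W →ₗ[ℂ] S'.W} (hf : IsHom S S' f) (hi : Function.Injective f)
    (hP : Nonempty (Pol S')) {U : (ZMod N)ˣ → Submodule ℂ S.W} (hU : IsPiece N S U) :
    IsPiece N S' fun l => (U l).map f where
  pol := hP
  betti l := by
    rintro _ ⟨x, hx, rfl⟩
    have h1 := hU.betti l hx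
    clear hx
    induction h1 using Submodule.span_induction with
    | mem x hx =>
      exact Submodule.subset_span ⟨(gcs_isTwist hf).map_Bbar hx.1, Submodule.mem_map_of_mem hx.2⟩
    | zero =>
      rw [map_zero]
      exact zero_mem _
    | add x y _ _ hx hy =>
      rw [map_add]
      exact add_mem hx hy
    | smul c x _ hx =>
      rw [map_smul]
      exact Submodule.smul_mem _ c hx
  deRham l := by
    rintro _ ⟨x, hx, rfl⟩
    have h1 := hU.deRham l hx
    clear hx
    induction h1 using Submodule.span_induction with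
    | mem x hx => exact Submodule.subset_span ⟨hf.deRham _ hx.1, Submodule.mem_map_of_mem hx.2⟩
    | zero =>
      rw [map_zero]
      exact zero_mem _
    | add x y _ _ hx hy =>
      rw [map_add]
      exact add_mem hx hy
    | smul c x _ hx =>
      rw [map_smul]
      exact Submodule.smul_mem _ c hx
  hodge l := by
    refine (Submodule.map_mono (hU.hodge l)).trans ?_
    rw [Submodule.map_iSup]
    refine iSup_mono fun p => ?_
    rintro _ ⟨x, hx, rfl⟩
    exact ⟨Submodule.mem_map_of_mem hx.1, hf.hodge p x hx.2⟩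
  conj l := by
    rintro _ ⟨x, hx, rfl⟩
    refine ⟨S.conj x, hU.conj l x hx, ?_⟩
    exact DT.map_conj hf.betti x
  rank l l' := by
    rw [← (Submodule.equivMapOfInjective f hi (U l)).finrank_eq,
      ← (Submodule.equivMapOfInjective f hi (U l')).finrank_eq, hU.rank l l']

theorem gcs_bijOn {f : S.W →ₗ[ℂ] S'.W} (hi : Function.Injective f) (U : Submodule ℂ S.W) :
    Set.BijOn f U (U.map f) :=
  ⟨fun _ hx => Submodule.mem_map_of_mem hx, hi.injOn, fun _ hx => hx⟩

section inv

variable {N : ℕ} {V : Type} [AddCommGroup V]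
  {δ : (S : Str) → ((ZMod N)ˣ → Submodule ℂ S.W) → V}

/-- An invariant of the image of a piece. -/
theorem IsInvariant.image (hδ : IsInvariant N δ) {f : S.W →ₗ[ℂ] S'.W} (hf : IsHom S S' f)
    (hi : Function.Injective f) (hP : Nonempty (Pol S')) {U : (ZMod N)ˣ → Submodule ℂ S.W}
    (hU : IsPiece N S U) : δ S' (fun l => (U l).map f) = δ S U :=
  (hδ.iso S S' 0 f U _ (gcs_isTwist hf) hU (gcs_piece hf hi hP hU) fun _ => gcs_bijOn hi _).symm

variable {M M' : Submodule ℚ S.W} {hM : IsSub S M} {hM' : IsSub S M'}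

/-- An invariant of a sum of pieces of two complementary substructures. -/
theorem IsInvariant.split (hδ : IsInvariant N δ) (hP : Nonempty (Pol S))
    (hc : IsCompl (S.cx M) (S.cx M')) {U : (ZMod N)ˣ → Submodule ℂ (subStr S M hM).W}
    {U' : (ZMod N)ˣ → Submodule ℂ (subStr S M' hM').W} (hU : IsPiece N (subStr S M hM) U)
    (hU' : IsPiece N (subStr S M' hM') U') :
    δ S (fun l => (U l).map (subInc S M hM) ⊔ (U' l).map (subInc S M' hM')) =
      δ (subStr S M hM) U + δ (subStr S M' hM') U' := by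
  have h1 := gcs_piece (subInc_isHom S M hM) (subInc_inj S M hM) hP hU
  have h2 := gcs_piece (subInc_isHom S M' hM') (subInc_inj S M' hM') hP hU'
  rw [hδ.add S _ _ h1 h2, hδ.image (subInc_isHom S M hM) (subInc_inj S M hM) hP hU,
    hδ.image (subInc_isHom S M' hM') (subInc_inj S M' hM') hP hU']
  intro l
  refine hc.disjoint.mono ?_ ?_
  · rintro _ ⟨x, -, rfl⟩
    exact x.2
  · rintro _ ⟨x, -, rfl⟩
    exact x.2

end inv

section restrict

variable (M : Submodule ℚ S.W) (hM : IsSub S M)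

/-- The eigenspaces of the restriction of an endomorphism. -/
theorem mem_sub_eigPiece {N : ℕ} {g : Module.End ℂ S.W} (hg : ∀ x ∈ S.cx M, g x ∈ S.cx M)
    {a : ZMod N} {l : (ZMod N)ˣ} {x : (subStr S M hM).W} :
    x ∈ eigPiece N (subStr S M hM) (subEnd S M hM g hg) a l ↔
      subInc S M hM x ∈ eigPiece N S g a l := by
  change x ∈ Module.End.eigenspace _ _ ↔ subInc S M hM x ∈ Module.End.eigenspace _ _
  rw [Module.End.mem_eigenspace_iff, Module.End.mem_eigenspace_iff, ← subEnd_inc S M hM g hg x,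
    ← (subInc S M hM).map_smul]
  exact (subInc_inj S M hM).eq_iff.symm

/-- The restriction of an action. -/
def subAct {K : Type} [Field K] (κ : K →ₙ+* Module.End ℂ S.W)
    (h : ∀ a, ∀ x ∈ S.cx M, κ a x ∈ S.cx M) : K →ₙ+* Module.End ℂ (subStr S M hM).W where
  toFun a := subEnd S M hM (κ a) (h a)
  map_mul' a b := by
    apply LinearMap.ext
    intro x
    apply subInc_inj S M hM
    rw [subEnd_inc, map_mul]
    rfl
  map_zero' := by
    apply LinearMap.ext
    intro x
    apply subInc_inj S M hM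
    rw [subEnd_inc, map_zero]
    rfl
  map_add' a b := by
    apply LinearMap.ext
    intro x
    apply subInc_inj S M hM
    rw [subEnd_inc, map_add]
    rfl

theorem subAct_isHom {K : Type} [Field K] {κ : K →ₙ+* Module.End ℂ S.W}
    (hκ : ∀ a, IsHom S S (κ a)) (h : ∀ a, ∀ x ∈ S.cx M, κ a x ∈ S.cx M) (a : K) :
    IsHom (subStr S M hM) (subStr S M hM) (subAct M hM κ h a) := subEnd_isHom S M hM (hκ a) (h a)

theorem mem_sub_eigenpart {K : Type} [Field K] {κ : K →ₙ+* Module.End ℂ S.W}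
    (h : ∀ a, ∀ x ∈ S.cx M, κ a x ∈ S.cx M) {τ : K →+* ℂ} {x : (subStr S M hM).W} :
    x ∈ eigenpart (subAct M hM κ h) τ ↔ subInc S M hM x ∈ eigenpart κ τ := by
  rw [eigenpart, eigenpart, Submodule.mem_iInf, Submodule.mem_iInf]
  refine forall_congr' fun a => ?_
  rw [Module.End.mem_eigenspace_iff, Module.End.mem_eigenspace_iff]
  change subEnd S M hM (κ a) (h a) x = _ ↔ _
  rw [← subEnd_inc S M hM (κ a) (h a) x, ← (subInc S M hM).map_smul]
  exact (subInc_inj S M hM).eq_iff.symm

variable {M} {M' : Submodule ℚ S.W} (hM' : IsSub S M') (hc : IsCompl (S.cx M) (S.cx M'))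

include hc in
theorem gcs_eig_split {N : ℕ} {g : Module.End ℂ S.W} (hg : ∀ x ∈ S.cx M, g x ∈ S.cx M)
    (hg' : ∀ x ∈ S.cx M', g x ∈ S.cx M') (a : ZMod N) : eigPiece N S g a = fun l =>
      (eigPiece N (subStr S M hM) (subEnd S M hM g hg) a l).map (subInc S M hM) ⊔
        (eigPiece N (subStr S M' hM') (subEnd S M' hM' g hg') a l).map (subInc S M' hM') := by
  funext l
  apply le_antisymm
  · intro x hx
    obtain ⟨u, hu, u', hu', rfl⟩ := Submodule.mem_sup.1
      (show x ∈ S.cx M ⊔ S.cx M' by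
        rw [hc.sup_eq_top]
        exact Submodule.mem_top)
    have h1 : u + u' ∈ Module.End.eigenspace g _ := hx
    rw [Module.End.mem_eigenspace_iff] at h1
    obtain ⟨h2, h3⟩ := gc_split hc hg hg' hu hu' h1
    refine Submodule.mem_sup.2 ⟨u, ⟨⟨u, hu⟩, ?_, rfl⟩, u', ⟨⟨u', hu'⟩, ?_, rfl⟩, rfl⟩
    · exact (mem_sub_eigPiece M hM hg).2 (Module.End.mem_eigenspace_iff.2 h2)
    · exact (mem_sub_eigPiece M' hM' hg').2 (Module.End.mem_eigenspace_iff.2 h3)
  · apply sup_le
    · rintro _ ⟨x, hx, rfl⟩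
      exact (mem_sub_eigPiece M hM hg).1 hx
    · rintro _ ⟨x, hx, rfl⟩
      exact (mem_sub_eigPiece M' hM' hg').1 hx

include hc in
theorem gcs_part_split {K : Type} [Field K] {κ : K →ₙ+* Module.End ℂ S.W}
    (h : ∀ a, ∀ x ∈ S.cx M, κ a x ∈ S.cx M) (h' : ∀ a, ∀ x ∈ S.cx M', κ a x ∈ S.cx M')
    (τ : K →+* ℂ) : eigenpart κ τ =
      (eigenpart (subAct M hM κ h) τ).map (subInc S M hM) ⊔
        (eigenpart (subAct M' hM' κ h') τ).map (subInc S M' hM') := by
  apply le_antisymm
  · intro x hx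
    obtain ⟨u, hu, u', hu', rfl⟩ := Submodule.mem_sup.1
      (show x ∈ S.cx M ⊔ S.cx M' by
        rw [hc.sup_eq_top]
        exact Submodule.mem_top)
    have h1 : ∀ a, κ a u = τ a • u ∧ κ a u' = τ a • u' := fun a =>
      gc_split hc (h a) (h' a) hu hu' (Module.End.mem_eigenspace_iff.1
        ((Submodule.mem_iInf _).1 hx a))
    refine Submodule.mem_sup.2 ⟨u, ⟨⟨u, hu⟩, ?_, rfl⟩, u', ⟨⟨u', hu'⟩, ?_, rfl⟩, rfl⟩
    · exact (mem_sub_eigenpart M hM h).2 ((Submodule.mem_iInf _).2 fun a =>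
        Module.End.mem_eigenspace_iff.2 (h1 a).1)
    · exact (mem_sub_eigenpart M' hM' h').2 ((Submodule.mem_iInf _).2 fun a =>
        Module.End.mem_eigenspace_iff.2 (h1 a).2)
  · apply sup_le
    · rintro _ ⟨x, hx, rfl⟩
      exact (mem_sub_eigenpart M hM h).1 hx
    · rintro _ ⟨x, hx, rfl⟩
      exact (mem_sub_eigenpart M' hM' h').1 hx

end restrict

/-- A substructure which is stable under all endomorphisms has a complement which is stable under
all endomorphisms. -/
theorem exists_stable_compl (P : Pol S) {M : Submodule ℚ S.W} (hM : IsSub S M)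
    (hst : ∀ f, IsHom S S f → ∀ x ∈ S.cx M, f x ∈ S.cx M) :
    ∃ (M' : Submodule ℚ S.W), IsSub S M' ∧ IsCompl (S.cx M) (S.cx M') ∧
      ∀ f, IsHom S S f → ∀ x ∈ S.cx M', f x ∈ S.cx M' := by
  obtain ⟨p, hp, hp1, hp2⟩ := exists_proj P hM
  have hq : IsHom S S (LinearMap.id - p) := (IsHom.id S).sub hp
  have hcx : S.cx (imgQ (LinearMap.id - p : S.W →ₗ[ℂ] S.W) S.B) =
      LinearMap.range (LinearMap.id - p : S.W →ₗ[ℂ] S.W) := by
    rw [cx_imgQ, Str.cx_B, Submodule.map_top]
  have hker : LinearMap.range (LinearMap.id - p : S.W →ₗ[ℂ] S.W) = LinearMap.ker p := by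
    ext x
    rw [LinearMap.mem_ker]
    constructor
    · rintro ⟨y, rfl⟩
      rw [LinearMap.sub_apply, LinearMap.id_apply, map_sub, hp1 _ (hp2 y), sub_self]
    · intro hx
      exact ⟨x, by rw [LinearMap.sub_apply, hx, sub_zero, LinearMap.id_apply]⟩
  refine ⟨imgQ (LinearMap.id - p : S.W →ₗ[ℂ] S.W) S.B, isSub_img hq isSub_top, ?_, ?_⟩
  · rw [hcx, hker]
    constructor
    · rw [Submodule.disjoint_def]
      intro x hx hx'
      rw [← hp1 x hx]
      exact hx'
    · rw [codisjoint_iff, eq_top_iff]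
      rintro x -
      refine Submodule.mem_sup.2 ⟨p x, hp2 x, x - p x, ?_, by abel⟩
      rw [LinearMap.mem_ker, map_sub, hp1 _ (hp2 x), sub_self]
  · intro f hf x hx
    rw [hcx, hker, LinearMap.mem_ker] at hx ⊢
    let g : Module.End ℂ S.W := p.comp (f.comp (LinearMap.id - p))
    have hg : IsHom S S g := hp.comp (hf.comp hq)
    have hgw : ∀ w, g w = p (f (w - p w)) := fun _ => rfl
    have hgI : ∀ x ∈ S.cx M, g x = 0 := by
      intro x hx
      rw [hgw, hp1 x hx, sub_self, map_zero, map_zero]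
    obtain ⟨g', hg', -, hE⟩ := exists_adj P (isSub_top (S := S)) hg
    have hall : ∀ w : S.W, w ∈ S.cx S.B := by
      intro w
      rw [Str.cx_B]
      exact Submodule.mem_top
    have h1 : ∀ y ∈ S.cx M, g' y = 0 := by
      intro y hy
      apply pol_nondeg P hM (hst g' hg' y hy)
      intro x hx
      rw [hE y x (hall x), hgI x hx, map_zero]
    have h2 : g x = 0 := by
      apply pol_nondeg' P hM (hp2 _)
      intro y hy
      have h2 := hE y x (hall x)
      rw [h1 y hy, map_zero, LinearMap.zero_apply] at h2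
      exact h2.symm
    rw [hgw, hx, sub_zero] at h2
    exact h2

end GD
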