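import Pool.Agent.H65.GC.Twist
import Pool.Agent.H26.DT.FamStr
import Pool.Agent.H27.GD.Isot

/-!
# Substructures as structures
-/

noncomputable section

namespace GD

open Complex Module NumberField

/-- A form of a subspace. -/
theorem gc_form_sub {k : Type} [Field k] [Algebra k ℂ] {W : Type} [AddCommGroup W] [Module ℂ W]
    [Module k W] [IsScalarTower k ℂ W] (L : Submodule k W) (h : IsBaseChange ℂ L.subtype)
    (M : Submodule ℂ W) (hM : M ≤ Submodule.span ℂ {x | x ∈ L ∧ x ∈ M}) :
    IsBaseChange ℂ (L.comap (M.subtype.restrictScalars k)).subtype := by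
  classical
  set L' : Submodule k M := L.comap (M.subtype.restrictScalars k) with hL'
  let β := Module.Basis.ofVectorSpace k L'
  let v : Module.Basis.ofVectorSpaceIndex k L' → M := fun i => (β i : M)
  have hvL : ∀ i, v i ∈ L' := fun i => (β i).2
  have hlin : LinearIndependent ℂ v := by
    apply LinearIndependent.of_comp M.subtype
    refine form_lin L h (fun i => ((v i : M) : W)) (fun i => hvL i) ?_
    have h1 : LinearIndependent k (fun i => (β i : L')) := β.linearIndependent
    have h2 : LinearMap.ker ((M.subtype.restrictScalars k).comp L'.subtype) = ⊥ := by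
      rw [LinearMap.ker_eq_bot']
      intro x hx
      exact Subtype.ext (Subtype.ext hx)
    exact h1.map' _ h2
  have hsp : ⊤ ≤ Submodule.span ℂ (Set.range v) := by
    rintro ⟨x, hx⟩ -
    have h1 := hM hx
    have h2 : Submodule.span ℂ {x | x ∈ L ∧ x ∈ M} ≤
        (Submodule.span ℂ (Set.range v)).map M.subtype := by
      rw [Submodule.span_le]
      rintro y ⟨hyL, hyM⟩
      have h3 : (⟨⟨y, hyM⟩, hyL⟩ : L') ∈ Submodule.span k (Set.range β) := by
        rw [β.span_eq]
        exact Submodule.mem_top
      have h4 : ∀ z : L', z ∈ Submodule.span k (Set.range β) →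
          (z : M) ∈ Submodule.span ℂ (Set.range v) := by
        intro z hz
        induction hz using Submodule.span_induction with
        | mem z hz =>
          obtain ⟨i, rfl⟩ := hz
          exact Submodule.subset_span ⟨i, rfl⟩
        | zero => exact zero_mem _
        | add x y _ _ hx hy => exact add_mem hx hy
        | smul a x _ hx =>
          have h5 : ((a • x : L') : M) = (algebraMap k ℂ a) • (x : M) := by
            rw [algebraMap_smul]
            rfl
          rw [h5]
          exact Submodule.smul_mem _ _ hx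
      exact ⟨⟨y, hyM⟩, h4 _ h3, rfl⟩
    obtain ⟨y, hy, hyx⟩ := h2 h1
    have h3 : y = ⟨x, hx⟩ := Subtype.ext hyx
    rwa [h3] at hy
  let b : Module.Basis _ ℂ M := Module.Basis.mk hlin hsp
  have hb : ∀ i, b i = v i := fun i => by simp [b]
  refine isBaseChange_of_basis L' b (fun i => by
    rw [hb]
    exact hvL i) ?_
  intro x hx
  have h3 : (⟨x, hx⟩ : L') ∈ Submodule.span k (Set.range β) := by
    rw [β.span_eq]
    exact Submodule.mem_top
  have h4 : ∀ z : L', z ∈ Submodule.span k (Set.range β) →
      (z : M) ∈ Submodule.span k (Set.range b) := by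
    intro z hz
    induction hz using Submodule.span_induction with
    | mem z hz =>
      obtain ⟨i, rfl⟩ := hz
      refine Submodule.subset_span ⟨i, ?_⟩
      exact hb i
    | zero => exact zero_mem _
    | add x y _ _ hx hy => exact add_mem hx hy
    | smul a x _ hx => exact Submodule.smul_mem _ a hx
  exact h4 _ h3

section sub

variable (S : Str) (M : Submodule ℚ S.W) (hM : IsSub S M)

include hM in
/-- The Hodge pieces of a substructure. -/
theorem gc_sub_internal : DirectSum.IsInternal fun p => (S.hodge p).comap (S.cx M).subtype := by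
  have h0 := S.hodge_internal
  rw [DirectSum.isInternal_submodule_iff_iSupIndep_and_iSup_eq_top] at h0 ⊢
  constructor
  · intro p
    rw [Submodule.disjoint_def]
    intro x hx hx'
    apply Subtype.ext
    refine (Submodule.disjoint_def.1 (h0.1 p)) _ hx ?_
    have h1 : (⨆ (j : ℕ) (_ : j ≠ p), (S.hodge j).comap (S.cx M).subtype) ≤
        (⨆ (j : ℕ) (_ : j ≠ p), S.hodge j).comap (S.cx M).subtype := by
      refine iSup_le fun j => iSup_le fun hj => ?_
      exact Submodule.comap_mono (le_iSup_of_le j (le_iSup_of_le hj le_rfl))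
    exact h1 hx'
  · rw [eq_top_iff]
    rintro x -
    have h1 := hM.hodge x.2
    have h2 : (⨆ p, S.cx M ⊓ S.hodge p) =
        (⨆ p, (S.hodge p).comap (S.cx M).subtype).map (S.cx M).subtype := by
      rw [Submodule.map_iSup]
      refine iSup_congr fun p => ?_
      rw [Submodule.map_comap_subtype]
    rw [h2] at h1
    obtain ⟨y, hy, hyx⟩ := h1
    have h3 : y = x := Subtype.ext hyx
    rwa [h3] at hy

/-- The substructure `M` as a structure. -/
def subStr : Str where
  W := S.cx M
  wt := S.wt
  B := S.B.comap ((S.cx M).subtype.restrictScalars ℚ)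
  D := S.D.comap ((S.cx M).subtype.restrictScalars Qbar)
  B_form := gc_form_sub S.B S.B_form _ (Submodule.span_le.2 fun x hx =>
    Submodule.subset_span ⟨hM.le hx, Submodule.subset_span hx⟩)
  D_form := gc_form_sub S.D S.D_form _ hM.deRham
  conj :=
    { toFun := fun x => ⟨S.conj x, conj_cx hM.le x.2⟩
      map_add' := fun x y => Subtype.ext (map_add S.conj (x : S.W) y)
      map_smul' := fun c x => Subtype.ext (S.conj.map_smulₛₗ c (x : S.W)) }
  conj_B := fun b hb => Subtype.ext (S.conj_B _ hb)
  hodge := fun p => (S.hodge p).comap (S.cx M).subtype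
  hodge_internal := gc_sub_internal S M hM
  hodge_large := by
    intro p hp
    rw [Submodule.eq_bot_iff]
    intro x hx
    have h1 : (x : S.W) ∈ S.hodge p := hx
    rw [S.hodge_large p hp, Submodule.mem_bot] at h1
    exact Subtype.ext h1
  hodge_conj := fun p hp x hx => S.hodge_conj p hp _ hx

/-- The inclusion of a substructure. -/
def subInc : (subStr S M hM).W →ₗ[ℂ] S.W := (S.cx M).subtype

theorem subInc_isHom : IsHom (subStr S M hM) S (subInc S M hM) :=
  ⟨rfl, fun _ hx => hx, fun _ hx => hx, fun _ _ hx => hx⟩

theorem subInc_inj : Function.Injective (subInc S M hM) := Subtype.val_injective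

theorem subInc_range : LinearMap.range (subInc S M hM) = S.cx M := Submodule.range_subtype _

/-- The restriction of a polarisation. -/
def subPol (P : Pol S) : Pol (subStr S M hM) where
  E := P.E.compl₁₂ (subInc S M hM) (subInc S M hM)
  rat := fun x hx y hy => P.rat (subInc S M hM x) hx (subInc S M hM y) hy
  dR := fun x hx y hy => P.dR (subInc S M hM x) hx (subInc S M hM y) hy
  orth := fun p q hpq x hx y hy => P.orth p q hpq (subInc S M hM x) hx (subInc S M hM y) hy
  pos := fun p hp x hx hx0 => P.pos p hp (subInc S M hM x) hx fun h => hx0 (subInc_inj S M hM h)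

/-- The restriction of an endomorphism of `S`. -/
def subEnd (g : Module.End ℂ S.W) (hg : ∀ x ∈ S.cx M, g x ∈ S.cx M) :
    Module.End ℂ (subStr S M hM).W := g.restrict hg

theorem subEnd_inc (g : Module.End ℂ S.W) (hg : ∀ x ∈ S.cx M, g x ∈ S.cx M) (x) :
    subInc S M hM (subEnd S M hM g hg x) = g (subInc S M hM x) := rfl

theorem subEnd_isHom {g : Module.End ℂ S.W} (h : IsHom S S g)
    (hg : ∀ x ∈ S.cx M, g x ∈ S.cx M) :
    IsHom (subStr S M hM) (subStr S M hM) (subEnd S M hM g hg) :=
  ⟨rfl, fun x hx => h.betti (subInc S M hM x) hx, fun x hx => h.deRham (subInc S M hM x) hx,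
    fun p x hx => h.hodge p (subInc S M hM x) hx⟩

theorem subEnd_pow {g : Module.End ℂ S.W} (hg : ∀ x ∈ S.cx M, g x ∈ S.cx M) {N : ℕ}
    (hN : g ^ N = 1) : subEnd S M hM g hg ^ N = 1 := by
  have h1 : ∀ (n : ℕ) (x : (subStr S M hM).W),
      subInc S M hM ((subEnd S M hM g hg ^ n) x) = (g ^ n) (subInc S M hM x) := by
    intro n
    induction n with
    | zero => exact fun x => rfl
    | succ n ih =>
      intro x
      rw [pow_succ, pow_succ, Module.End.mul_apply, Module.End.mul_apply, ih, subEnd_inc]
  apply LinearMap.ext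
  intro x
  apply subInc_inj
  rw [h1, hN]
  rfl

end sub

end GD
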